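import Pool.Agent.Lib.MP_a78e1f_lc.R.Iface

/-!
# Module EVF (helper45): evaluation in an extension
-/

universe u v w

open Cardinal Filter MeasureTheory

namespace Pool.Agent.Lib.MP_a78e1f_lc.H45

open Pool.Agent.Lib.MP_100a6c_lc
open Pool.Agent.Lib.MP_c5d73d_lc.F (pr)
open Pool.Agent.Lib.MP_e6fef2_lc
open Pool.Agent.Lib.MP_6d445e_gt
open Pool.Agent.Lib.MP_a78e1f_lc

theorem club_fun {T T' : Type u} (f : T → T') : ∀ᶠ N in club.{u}, ∀ t : T, In N t → In N (f t) :=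
  all_club.2.2.2.2.2.1 T T' f

theorem club_nat {p : ℕ → Set El.{u} → Prop} (h : ∀ n, ∀ᶠ N in club, p n N) :
    ∀ᶠ N in club, ∀ n, p n N := all_club.2.2.1 p h

section

variable {A C : Type u} [CompleteBooleanAlgebra A] [CompleteBooleanAlgebra C] {f : A → C}

theorem mem_pulls (hf : IsCE f) (E : Set (Pt A)) (h : Ult C) (x : Cs) :
    (h, x) ∈ pulls f E ↔ (h.pull hf, x) ∈ E := by
  constructor
  · rintro ⟨g, hg, hE⟩
    have : g = h.pull hf := by
      apply Ult.ext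
      ext a
      exact hg a
    rw [← this]
    exact hE
  · intro hE
    exact ⟨h.pull hf, fun a => Iff.rfl, hE⟩

theorem vx_comp (hf : IsCE f) (X : ℕ → A) (h : Ult C) :
    vx (fun n => f (X n)) h = vx X (h.pull hf) := rfl

theorem mem_pulls_vx (hf : IsCE f) (E : Set (Pt A)) (X : ℕ → A) (h : Ult C) :
    (h, vx (fun n => f (X n)) h) ∈ pulls f E ↔ (h.pull hf, vx X (h.pull hf)) ∈ E :=
  mem_pulls hf E h _

theorem rep_meas (r : RA A) : MeasurableSet (rep r) := by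
  unfold rep
  split_ifs with h
  · exact h.choose_spec.1
  · exact MeasurableSet.empty

theorem rep_rmap (hrfm : RfmStatement.{u}) (hf : IsCE f) (r : RA A) :
    mkR (rep (rmap f r)) = mkR (pulls f (rep r)) := by
  have hex : ∃ E : Set (Pt C), MeasurableSet E ∧ mkR E = rmap f r :=
    ⟨pulls f (rep r), (hrfm A C f hf).2.1 _ (rep_meas r), rfl⟩
  have : rep (rmap f r) = hex.choose := by
    unfold rep
    exact dif_pos hex
  rw [this]
  exact hex.choose_spec.2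

/-- `disX` pointwise. -/
theorem disX_mem (n : ℕ) (x : ℕ → RA A) (Y X : ℕ → A) : ∀ᶠ g in ae A, disX n x Y X ∈ g ↔
    ∀ p, n ≤ p → ∀ i, ev X (x (Nat.pair p i)) ∈ g → Y (Nat.pair p i) ∉ g := by
  unfold disX
  have h1 := ae_iInf (A := A) (fun p : ℕ => ⨅ _ : n ≤ p, ⨅ i,
    (ev X (x (Nat.pair p i)) ⊓ Y (Nat.pair p i))ᶜ)
  have h2 : ∀ᶠ g in ae A, ∀ p : ℕ, (⨅ _ : n ≤ p, ⨅ i,
      (ev X (x (Nat.pair p i)) ⊓ Y (Nat.pair p i))ᶜ) ∈ g ↔ ∀ _ : n ≤ p, (⨅ i,
      (ev X (x (Nat.pair p i)) ⊓ Y (Nat.pair p i))ᶜ) ∈ g := ae_all fun p => ae_iInf _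
  have h3 : ∀ᶠ g in ae A, ∀ p : ℕ, (⨅ i,
      (ev X (x (Nat.pair p i)) ⊓ Y (Nat.pair p i))ᶜ) ∈ g ↔ ∀ i,
      (ev X (x (Nat.pair p i)) ⊓ Y (Nat.pair p i))ᶜ ∈ g := ae_all fun p => ae_iInf _
  filter_upwards [h1, h2, h3] with g g1 g2 g3
  rw [g1]
  refine forall_congr' fun p => ?_
  rw [g2]
  refine forall_congr' fun _ => ?_
  rw [g3]
  refine forall_congr' fun i => ?_
  rw [g.mem_compl, g.mem_inf, not_and]

end

theorem evf (hevx : EvxStatement.{u}) (hrfm : RfmStatement.{u}) (hrapi : RapiStatement.{u}) :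
    EvfStatement.{u} := by
  intro A C _ _ f hf
  obtain ⟨a1, a2, -⟩ := hevx A
  obtain ⟨c1, c2, -⟩ := hevx C
  obtain ⟨-, rme, -, rnl, -⟩ := hrfm A C f hf
  have hgen := (all_gen A).2 C f hf
  filter_upwards [a1, a2, c1, c2, hgen, club_fun (pulls f : Set (Pt A) → Set (Pt C)),
    club_fun (rmap f : RA A → RA C),
    club_fun (fun r : RA A => rep (rmap f r) \ pulls f (rep r)),
    club_fun (fun r : RA A => pulls f (rep r) \ rep (rmap f r)),
    club_nat fun k => club_fun (fun x : ℕ → RA A => x k)]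
    with N a1 a2 c1 c2 hgen k1 k2 k3 k4 k5 X
  -- pointwise form of the first claim
  have p1 : ∀ᶠ h in ae C, rn N (fun n => f (X n)) ∈ h → rn N X ∈ h.pull hf := by
    filter_upwards [c1 fun n => f (X n), ae_pull hf (a1 X)] with h hc ha hr
    rw [ha]
    obtain ⟨h1, h2⟩ := hc.1 hr
    refine ⟨Ult.mem_pull.2 (h.mono hgen h1), fun E hE hm hn => ?_⟩
    have h3 := h2 (pulls f E) (k1 E hE) (rme E hm) (rnl E hn)
    rwa [mem_pulls_vx hf] at h3
  have p2 : ∀ r : RA A, In N r → ∀ᶠ h in ae C, rn N (fun n => f (X n)) ∈ h →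
      (ev (fun n => f (X n)) (rmap f r) ∈ h ↔ f (ev X r) ∈ h) := by
    intro r hr
    have hm := rep_meas r
    have hm' := rep_meas (rmap f r)
    have hmp := rme _ hm
    have n1 : nl (rep (rmap f r) \ pulls f (rep r)) :=
      ((hrapi C).1 _ _ hm' hmp).1 (rep_rmap hrfm hf r).le
    have n2 : nl (pulls f (rep r) \ rep (rmap f r)) :=
      ((hrapi C).1 _ _ hmp hm').1 (rep_rmap hrfm hf r).ge
    filter_upwards [p1, c1 fun n => f (X n), c2 fun n => f (X n), ae_pull hf (a2 X)]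
      with h hp hc hc2 ha2 hrn
    have e1 := (hc2 hrn).rp (rmap f r) (k2 r hr)
    have e2 := (ha2 (hp hrn)).rp r hr
    obtain ⟨-, h2⟩ := hc.1 hrn
    have h3 := h2 _ (k3 r hr) (hm'.diff hmp) n1
    have h4 := h2 _ (k4 r hr) (hmp.diff hm') n2
    rw [e1, ← Ult.mem_pull (hf := hf), e2, ← mem_pulls_vx hf]
    constructor
    · intro h5
      by_contra h6
      exact h3 ⟨h5, h6⟩
    · intro h5
      by_contra h6
      exact h4 ⟨h5, h6⟩
  refine ⟨?_, p2, ?_⟩
  · refine le_of_ae ?_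
    filter_upwards [p1] with h hh hr
    exact Ult.mem_pull.1 (hh hr)
  · intro n x Y hx
    refine eq_of_ae ?_
    have q : ∀ᶠ h in ae C, ∀ k, rn N (fun n => f (X n)) ∈ h →
        (ev (fun n => f (X n)) (rmap f (x k)) ∈ h ↔ f (ev X (x k)) ∈ h) :=
      ae_all fun k => p2 (x k) (k5 k x hx)
    filter_upwards [q, disX_mem n (fun k => rmap f (x k)) (fun n => f (Y n)) (fun n => f (X n)),
      ae_pull hf (disX_mem n x Y X)] with h hq h1 h2
    rw [h.mem_inf, h.mem_inf]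
    refine and_congr_right fun hr => ?_
    rw [h1, ← Ult.mem_pull (hf := hf), h2]
    refine forall_congr' fun p => forall_congr' fun _ => forall_congr' fun i => ?_
    rw [hq _ hr]
    exact Iff.rfl

end Pool.Agent.Lib.MP_a78e1f_lc.H45
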