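import Mathlib

/-!
# Combinatorics of TRSAC (helper45): a binary tree of states
-/

universe u v w

namespace Pool.Agent.Lib.MP_a78e1f_lc.H45

/-- Two lists are comparable or split at some place. -/
theorem list_split {α : Type*} : ∀ p q : List α, p <+: q ∨ q <+: p ∨
    ∃ t i j, i ≠ j ∧ t ++ [i] <+: p ∧ t ++ [j] <+: q
  | [], q => Or.inl (List.nil_prefix)
  | a :: p, [] => Or.inr (Or.inl List.nil_prefix)
  | a :: p, b :: q => by
    by_cases h : a = b
    · subst h
      rcases list_split p q with h | h | ⟨t, i, j, hij, h1, h2⟩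
      · exact Or.inl (List.cons_prefix_cons.2 ⟨rfl, h⟩)
      · exact Or.inr (Or.inl (List.cons_prefix_cons.2 ⟨rfl, h⟩))
      · refine Or.inr (Or.inr ⟨a :: t, i, j, hij, ?_, ?_⟩)
        · rw [List.cons_append]
          exact List.cons_prefix_cons.2 ⟨rfl, h1⟩
        · rw [List.cons_append]
          exact List.cons_prefix_cons.2 ⟨rfl, h2⟩
    · refine Or.inr (Or.inr ⟨[], a, b, h, ?_, ?_⟩)
      · rw [List.nil_append]
        exact List.cons_prefix_cons.2 ⟨rfl, List.nil_prefix⟩
      · rw [List.nil_append]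
        exact List.cons_prefix_cons.2 ⟨rfl, List.nil_prefix⟩

/-- A common initial segment of two lists which split is an initial segment of the splitting
node. -/
theorem prefix_split {α : Type*} {r t p q : List α} {i j : α} (hij : i ≠ j)
    (h1 : t ++ [i] <+: p) (h2 : t ++ [j] <+: q) (hp : r <+: p) (hq : r <+: q) : r <+: t := by
  have aux : ∀ {p q : List α} {i j : α}, i ≠ j → t ++ [i] <+: p → t ++ [j] <+: q → r <+: p →
      r <+: q → r.length ≤ t.length ∨ False := by
    intro p q i j hij h1 h2 hp hq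
    by_cases hl : r.length ≤ t.length
    · exact Or.inl hl
    · exfalso
      have h3 : t ++ [i] <+: r := by
        rcases List.prefix_or_prefix_of_prefix h1 hp with h | h
        · exact h
        · have := h.length_le
          have h4 : r = t ++ [i] := h.eq_of_length (by
            simp only [List.length_append, List.length_singleton] at this ⊢; omega)
          rw [h4]
      have h5 : t ++ [i] <+: q := h3.trans hq
      rcases List.prefix_or_prefix_of_prefix h5 h2 with h | h
      · have := h.eq_of_length (by simp)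
        exact hij (by simpa using this)
      · have := h.eq_of_length (by simp)
        exact hij (by simpa using this.symm)
  have hl : r.length ≤ t.length := (aux hij h1 h2 hp hq).resolve_right id
  have h3 : t <+: p := (List.prefix_append t [i]).trans h1
  exact List.prefix_of_prefix_length_le hp h3 hl

section

variable {X : Type u} (E : X → X × X → Prop) (enc : X × X → ℕ) (s0 : X)

/-- The first pair of next states. -/
def Nx (s : X) (x : X × X) : Prop := E s x ∧ ∀ y, enc y < enc x → ¬ E s y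

/-- The first or the second component. -/
def pk (b : Bool) (x : X × X) : X := if b = true then x.2 else x.1

/-- `s` is the state at the node with the reverse `ρ`. -/
def Rr : List Bool → X → Prop
  | [], s => s = s0
  | b :: ρ, s' => ∃ s, Rr ρ s ∧ ∃ x, Nx E enc s x ∧ pk b x = s'

/-- `s` is the state at the node `ρ`. -/
def Rn (ρ : List Bool) (s : X) : Prop := Rr E enc s0 ρ.reverse s

variable {E enc s0}

theorem rn_nil (s : X) : Rn E enc s0 [] s ↔ s = s0 := Iff.rfl

theorem rn_append (ρ : List Bool) (b : Bool) (s' : X) : Rn E enc s0 (ρ ++ [b]) s' ↔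
    ∃ s, Rn E enc s0 ρ s ∧ ∃ x, Nx E enc s x ∧ pk b x = s' := by
  unfold Rn
  rw [List.reverse_append, List.reverse_singleton, List.singleton_append]
  rfl

theorem nx_unique (henc : Function.Injective enc) {s : X} {x y : X × X} (hx : Nx E enc s x)
    (hy : Nx E enc s y) : x = y := by
  apply henc
  rcases lt_trichotomy (enc x) (enc y) with h | h | h
  · exact absurd hx.1 (hy.2 x h)
  · exact h
  · exact absurd hy.1 (hx.2 y h)

theorem nx_exists {s : X} (h : ∃ x, E s x) : ∃ x, Nx E enc s x := by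
  classical
  have h1 : ∃ n, ∃ x, enc x = n ∧ E s x := by
    obtain ⟨x, hx⟩ := h
    exact ⟨_, x, rfl, hx⟩
  obtain ⟨x, hx, hE⟩ := Nat.find_spec h1
  refine ⟨x, hE, fun y hy hy' => ?_⟩
  rw [hx] at hy
  exact Nat.find_min h1 hy ⟨y, rfl, hy'⟩

/-- The hypotheses for a fixed ultrafilter. -/
structure Hy (E : X → X × X → Prop) (enc : X × X → ℕ) (s0 : X) (nd : X → List ℕ)
    (G : X → Prop) : Prop where
  inj : Function.Injective enc
  g0 : G s0
  bin : ∀ s, G s → ∀ i ∈ nd s, i = 0 ∨ i = 1
  le : ∀ s x, E s x → G x.1 ∧ G x.2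
  node : ∀ s x, E s x → nd s <+: nd x.1 ∧ nd s <+: nd x.2 ∧
    ¬ (nd x.1 <+: nd x.2 ∨ nd x.2 <+: nd x.1)
  ex : ∀ s, G s → ∃ x, E s x

variable {nd : X → List ℕ} {G : X → Prop}

theorem rn_unique (H : Hy E enc s0 nd G) (ρ : List Bool) : ∀ {s s' : X}, Rn E enc s0 ρ s →
    Rn E enc s0 ρ s' → s = s' := by
  induction ρ using List.reverseRecOn with
  | nil =>
    intro s s' h h'
    rw [rn_nil] at h h'
    rw [h, h']
  | append_singleton ρ b ih =>
    intro s s' h h'
    rw [rn_append] at h h'
    obtain ⟨r, hr, x, hx, rfl⟩ := h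
    obtain ⟨r', hr', x', hx', rfl⟩ := h'
    have := ih hr hr'
    subst this
    rw [nx_unique H.inj hx hx']

theorem rn_good (H : Hy E enc s0 nd G) (ρ : List Bool) : ∀ {s : X}, Rn E enc s0 ρ s → G s := by
  induction ρ using List.reverseRecOn with
  | nil =>
    intro s h
    rw [rn_nil] at h
    rw [h]
    exact H.g0
  | append_singleton ρ b ih =>
    intro s h
    rw [rn_append] at h
    obtain ⟨r, hr, x, hx, rfl⟩ := h
    unfold pk
    split_ifs
    · exact (H.le r x hx.1).2
    · exact (H.le r x hx.1).1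

theorem rn_child (H : Hy E enc s0 nd G) {ρ : List Bool} {s : X} (h : Rn E enc s0 ρ s) :
    ∃ x, Nx E enc s x ∧ Rn E enc s0 (ρ ++ [false]) x.1 ∧ Rn E enc s0 (ρ ++ [true]) x.2 := by
  obtain ⟨x, hx⟩ := nx_exists (enc := enc) (H.ex s (rn_good H ρ h))
  refine ⟨x, hx, ?_, ?_⟩
  · rw [rn_append]
    exact ⟨s, h, x, hx, rfl⟩
  · rw [rn_append]
    exact ⟨s, h, x, hx, rfl⟩

theorem rn_exists (H : Hy E enc s0 nd G) (ρ : List Bool) : ∃ s, Rn E enc s0 ρ s := by
  induction ρ using List.reverseRecOn with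
  | nil => exact ⟨s0, rfl⟩
  | append_singleton ρ b ih =>
    obtain ⟨s, hs⟩ := ih
    obtain ⟨x, -, h1, h2⟩ := rn_child H hs
    cases b
    · exact ⟨_, h1⟩
    · exact ⟨_, h2⟩

theorem rn_step_prefix (H : Hy E enc s0 nd G) {ρ : List Bool} {b : Bool} {s s' : X}
    (h : Rn E enc s0 ρ s) (h' : Rn E enc s0 (ρ ++ [b]) s') : nd s <+: nd s' := by
  rw [rn_append] at h'
  obtain ⟨r, hr, x, hx, rfl⟩ := h'
  have := rn_unique H ρ h hr
  subst this
  unfold pk
  split_ifs
  · exact (H.node s x hx.1).2.1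
  · exact (H.node s x hx.1).1

theorem rn_mono (H : Hy E enc s0 nd G) {ρ : List Bool} {s : X} (h : Rn E enc s0 ρ s)
    (l : List Bool) : ∀ {s' : X}, Rn E enc s0 (ρ ++ l) s' → nd s <+: nd s' := by
  induction l using List.reverseRecOn with
  | nil =>
    intro s' h'
    rw [List.append_nil] at h'
    rw [rn_unique H ρ h h']
  | append_singleton l b ih =>
    intro s' h'
    rw [← List.append_assoc] at h'
    obtain ⟨r, hr⟩ := rn_exists H (ρ ++ l)
    exact (ih hr).trans (rn_step_prefix H hr h')

theorem rn_mono' (H : Hy E enc s0 nd G) {ρ ρ' : List Bool} (hp : ρ <+: ρ') {s s' : X}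
    (h : Rn E enc s0 ρ s) (h' : Rn E enc s0 ρ' s') : nd s <+: nd s' := by
  obtain ⟨l, rfl⟩ := hp
  exact rn_mono H h l h'

/-- Comparable nodes belong to comparable positions. -/
theorem rn_key (H : Hy E enc s0 nd G) {ρ ρ' : List Bool} {s s' : X} {t : List ℕ}
    (h : Rn E enc s0 ρ s) (h' : Rn E enc s0 ρ' s') (h1 : nd s <+: t) (h2 : nd s' <+: t) :
    ρ <+: ρ' ∨ ρ' <+: ρ := by
  rcases list_split ρ ρ' with hc | hc | ⟨c, i, j, hij, hi, hj⟩
  · exact Or.inl hc
  · exact Or.inr hc
  · exfalso
    obtain ⟨r, hr⟩ := rn_exists H c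
    obtain ⟨x, hx, hx1, hx2⟩ := rn_child H hr
    have hn := (H.node r x hx.1).2.2
    obtain ⟨si, hsi⟩ := rn_exists H (c ++ [i])
    obtain ⟨sj, hsj⟩ := rn_exists H (c ++ [j])
    have e1 : nd si <+: t := (rn_mono' H hi hsi h).trans h1
    have e2 : nd sj <+: t := (rn_mono' H hj hsj h').trans h2
    cases i
    · cases j
      · exact hij rfl
      · rw [rn_unique H _ hsi hx1] at e1
        rw [rn_unique H _ hsj hx2] at e2
        exact hn (List.prefix_or_prefix_of_prefix e1 e2)
    · cases j
      · rw [rn_unique H _ hsi hx2] at e1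
        rw [rn_unique H _ hsj hx1] at e2
        exact hn (List.prefix_or_prefix_of_prefix e2 e1)
      · exact hij rfl

/-- The tree of all initial segments of nodes. -/
def Tr (E : X → X × X → Prop) (enc : X × X → ℕ) (s0 : X) (nd : X → List ℕ) : Set (List ℕ) :=
  {t | ∃ ρ s, Rn E enc s0 ρ s ∧ t <+: nd s}

theorem mem_tr (t : List ℕ) : t ∈ Tr E enc s0 nd ↔ ∃ ρ s, Rn E enc s0 ρ s ∧ t <+: nd s :=
  Iff.rfl

/-- An element of the tree which is longer than both successors of `s` and extends `s`, extends one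
of the successors. -/
theorem tr_child (H : Hy E enc s0 nd G) {ρ : List Bool} {s : X} (h : Rn E enc s0 ρ s)
    {x : X × X} (hx : Nx E enc s x) (hx1 : Rn E enc s0 (ρ ++ [false]) x.1)
    (hx2 : Rn E enc s0 (ρ ++ [true]) x.2) {t : List ℕ} (ht : t ∈ Tr E enc s0 nd)
    (hst : nd s <+: t) (l1 : (nd x.1).length ≤ t.length) (l2 : (nd x.2).length ≤ t.length) :
    nd x.1 <+: t ∨ nd x.2 <+: t := by
  obtain ⟨ρ1, s1, h1, hp⟩ := (mem_tr t).1 ht
  have hnode := H.node s x hx.1
  have hlt : (nd s).length < (nd x.1).length := by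
    refine lt_of_le_of_ne hnode.1.length_le fun he => ?_
    have := hnode.1.eq_of_length he
    exact hnode.2.2 (Or.inl (this ▸ hnode.2.1))
  rcases rn_key H h h1 (hst.trans hp) List.prefix_rfl with hc | hc
  · -- `ρ1` extends `ρ`
    obtain ⟨l, rfl⟩ := hc
    cases l with
    | nil =>
      rw [List.append_nil] at h1
      have := rn_unique H ρ h h1
      subst this
      have := hp.length_le
      omega
    | cons b l =>
      have e : ρ ++ b :: l = (ρ ++ [b]) ++ l := by simp
      rw [e] at h1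
      cases b
      · left
        exact List.prefix_of_prefix_length_le (rn_mono H hx1 l h1) hp l1
      · right
        exact List.prefix_of_prefix_length_le (rn_mono H hx2 l h1) hp l2
  · have h3 := (rn_mono' H hc h1 h).length_le
    have h4 := hp.length_le
    omega

/-- Elements of the tree which are comparable with `nd s` are initial segments of `nd s` or of
nodes above `s`. -/
theorem tr_cmp (H : Hy E enc s0 nd G) {ρ : List Bool} {s : X} (h : Rn E enc s0 ρ s)
    {t : List ℕ} (ht : t ∈ Tr E enc s0 nd) (hc : t <+: nd s ∨ nd s <+: t) :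
    ∃ ρ' s', ρ <+: ρ' ∧ Rn E enc s0 ρ' s' ∧ t <+: nd s' := by
  rcases hc with hc | hc
  · exact ⟨ρ, s, List.prefix_rfl, h, hc⟩
  · obtain ⟨ρ1, s1, h1, hp⟩ := (mem_tr t).1 ht
    rcases rn_key H h h1 (hc.trans hp) List.prefix_rfl with h2 | h2
    · exact ⟨ρ1, s1, h2, h1, hp⟩
    · exact ⟨ρ, s, List.prefix_rfl, h, hp.trans (rn_mono' H h2 h1 h)⟩

end

end Pool.Agent.Lib.MP_a78e1f_lc.H45
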