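import Pool.Agent.Lib.MP_a78e1f_lc.K.Iface
import Pool.Agent.Lib.MP_a78e1f_lc.H45.SacComb

/-!
# Module TRSAC (helper45): a perfect tree is obtained from a binary tree of states
-/

universe u v w

open Cardinal Filter MeasureTheory

namespace Pool.Agent.Lib.MP_a78e1f_lc.H45

open Pool.Agent.Lib.MP_100a6c_lc
open Pool.Agent.Lib.MP_e6fef2_lc
open Pool.Agent.Lib.MP_6d445e_gt
open Pool.Agent.Lib.MP_a78e1f_lc

section

variable {A : Type u} [CompleteBooleanAlgebra A]

theorem meas_mem' (a : A) : Measurable fun g : Ult A => a ∈ g :=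
  measurableSet_setOfPred.1 (measurable_mem A a)

theorem tq_mem_le_of (σ σ' : TX IsSac A) : ∀ᶠ g in ae A, (∀ t, σ.1 t ∈ g → σ'.1 t ∈ g) →
    (TQ IsSac A).le σ σ' ∈ g := by
  have h1 : ∀ᶠ g in ae A, (⨅ t, σ.1 t ⇨ σ'.1 t) ∈ g ↔ ∀ t, (σ.1 t ⇨ σ'.1 t) ∈ g := ae_iInf _
  filter_upwards [h1] with g h1 h
  exact h1.2 fun t => g.mem_himp.2 (h t)

/-- The perfect tree. -/
theorem tr_sac {X : Type u} {E : X → X × X → Prop} {enc : X × X → ℕ} {s0 : X}
    {nd : X → List ℕ} {G : X → Prop} (H : Hy E enc s0 nd G) : IsSac (Tr E enc s0 nd) where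
  nil := ⟨[], s0, rfl, List.nil_prefix⟩
  pre := by
    rintro t t' ht ⟨ρ, s, h, hp⟩
    exact ⟨ρ, s, h, ht.trans hp⟩
  bin := by
    rintro t ⟨ρ, s, h, hp⟩ i hi
    exact H.bin s (rn_good H ρ h) i (hp.subset hi)
  spl := by
    rintro t ⟨ρ, s, h, hp⟩
    obtain ⟨x, hx, hx1, hx2⟩ := rn_child H h
    obtain ⟨n1, n2, n3⟩ := H.node s x hx.1
    rcases list_split (nd x.1) (nd x.2) with hc | hc | ⟨c, i, j, hij, hi, hj⟩
    · exact absurd (Or.inl hc) n3
    · exact absurd (Or.inr hc) n3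
    · have hr : nd s <+: c := prefix_split hij hi hj n1 n2
      have bi : i = 0 ∨ i = 1 := by
        refine H.bin x.1 (rn_good H _ hx1) i (hi.subset ?_)
        simp
      have bj : j = 0 ∨ j = 1 := by
        refine H.bin x.2 (rn_good H _ hx2) j (hj.subset ?_)
        simp
      refine ⟨c, hp.trans hr, ?_⟩
      rcases bi with rfl | rfl
      · rcases bj with rfl | rfl
        · exact absurd rfl hij
        · exact ⟨⟨_, _, hx1, hi⟩, ⟨_, _, hx2, hj⟩⟩
      · rcases bj with rfl | rfl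
        · exact ⟨⟨_, _, hx2, hj⟩, ⟨_, _, hx1, hi⟩⟩
        · exact absurd rfl hij

section meas

variable {X : Type u} [Countable X] (ed : X → X → X → A) (enc : X × X → ℕ) (s0 : X)

/-- Good pairs at `g`. -/
def EE (g : Ult A) (s : X) (x : X × X) : Prop := ed s x.1 x.2 ∈ g

theorem meas_nx' (s : X) (x : X × X) : Measurable fun g : Ult A => Nx (EE ed g) enc s x :=
  (meas_mem' _).and (Measurable.forall fun _ => measurable_const.imp (meas_mem' _).not)

theorem meas_rr : ∀ (ρ : List Bool) (s : X),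
    Measurable fun g : Ult A => Rr (EE ed g) enc s0 ρ s
  | [], _ => measurable_const
  | b :: ρ, s' => Measurable.exists fun s => (meas_rr ρ s).and
      (Measurable.exists fun x => (meas_nx' ed enc s x).and measurable_const)

theorem meas_rn (ρ : List Bool) (s : X) :
    Measurable fun g : Ult A => Rn (EE ed g) enc s0 ρ s := meas_rr ed enc s0 _ s

theorem meas_tr (nd : X → List ℕ) (t : List ℕ) :
    Measurable fun g : Ult A => t ∈ Tr (EE ed g) enc s0 nd :=
  Measurable.exists fun ρ => Measurable.exists fun s =>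
    (meas_rn ed enc s0 ρ s).and measurable_const

theorem good_ev' {nd : X → List ℕ} {gd : X → A} (h : PHyp2 nd gd ed) :
    ∀ᶠ g in ae A, ∀ s, gd s ∈ g → ∃ x, EE ed g s x := by
  refine ae_all fun s => ?_
  have h1 := ae_iSup (A := A) fun s' : X => ⨆ s'', ed s s' s''
  have h2 := ae_all (A := A) fun s' : X => ae_iSup (A := A) fun s'' : X => ed s s' s''
  filter_upwards [h1, h2] with g h1 h2 hg
  obtain ⟨s', hs'⟩ := h1.1 (g.mono (h.ex s) hg)
  obtain ⟨s'', hs''⟩ := (h2 s').1 hs'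
  exact ⟨(s', s''), hs''⟩

theorem hy_of {nd : X → List ℕ} {gd : X → A} (h : PHyp2 nd gd ed)
    (henc : Function.Injective enc) {g : Ult A} (h0 : gd s0 ∈ g)
    (hex : ∀ s, gd s ∈ g → ∃ x, EE ed g s x) : Hy (EE ed g) enc s0 nd fun s => gd s ∈ g where
  inj := henc
  g0 := h0
  bin := fun s hs => h.bin s fun h0 => g.not_bot (h0 ▸ hs)
  le := fun s x hx => g.mem_inf.1 (g.mono (h.le s x.1 x.2) hx)
  node := fun s x hx => h.node s x.1 x.2 fun h0 => g.not_bot (h0 ▸ hx)
  ex := hex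

end meas

end

theorem trsac (hgnd : GndStatement.{u}) (hgmx : GmxStatement.{u}) (hfam : FamStatement) :
    TrsacStatement.{u} := by
  intro A _ X _ nd gd ed H s0 a ha
  classical
  have hT : TFam IsSac := hfam.2.2
  obtain ⟨hne, ndnil, ndpre, -, ndsup, -, prjnd, -⟩ := hgnd IsSac hT A
  obtain ⟨mres, -, -, -, -, mfo, mfole, -⟩ := hgmx IsSac hT A
  obtain ⟨τ0⟩ := hne
  have hne : Nonempty (TX IsSac A) := ⟨τ0⟩
  have hE : IsCE (tE IsSac A) := (all_tw1 A (TX IsSac A) (TQ IsSac A)).1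
  have hprj : ∀ c : tC IsSac A, c ≤ tE IsSac A (prj (tE IsSac A) c) :=
    (all_alg A (tC IsSac A) (tE IsSac A) hE).2.2.2.2.2.2.2.2.2.1
  obtain ⟨enc, henc⟩ := exists_injective_nat (X × X)
  have hgood := good_ev' (A := A) ed H
  obtain ⟨act, hact⟩ := exists_name (A := A) (J := List Bool × X)
    (F := fun j g => Rn (EE ed g) enc s0 j.1 j.2)
    (fun j => measurableSet_setOfPred.2 (meas_rn ed enc s0 j.1 j.2))
  obtain ⟨ts, hts⟩ := exists_name (A := A) (J := List ℕ)
    (F := fun t g => (a ∈ g ∧ t ∈ Tr (EE ed g) enc s0 nd) ∨ (a ∉ g ∧ τ0.1 t ∈ g))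
    (fun t => measurableSet_setOfPred.2 (((meas_mem' a).and (meas_tr ed enc s0 nd t)).or
      ((meas_mem' a).not.and (meas_mem' _))))
  have hHy : ∀ g : Ult A, a ∈ g → (∀ s, gd s ∈ g → ∃ x, EE ed g s x) →
      Hy (EE ed g) enc s0 nd fun s => gd s ∈ g :=
    fun g hg hex => hy_of ed enc s0 H henc (g.mono ha hg) hex
  let τ : TX IsSac A := ⟨ts, by
    filter_upwards [hgood, hts, τ0.2] with g g1 g2 g3
    by_cases hg : a ∈ g
    · have e : {t | ts t ∈ g} = Tr (EE ed g) enc s0 nd := by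
        ext t
        simp only [Set.mem_ofPred_eq, g2 t, hg, true_and, not_true_eq_false, false_and, or_false]
      rw [e]
      exact tr_sac (hHy g hg g1)
    · have e : {t | ts t ∈ g} = {t | τ0.1 t ∈ g} := by
        ext t
        simp only [Set.mem_ofPred_eq, g2 t, hg, false_and, not_false_eq_true, true_and, false_or]
      rw [e]
      exact g3⟩
  refine ⟨fun ρ s => act (ρ, s), τ, ?_, ?_, ?_⟩
  · filter_upwards [hgood, hact] with g g1 g2 hg
    have hH := hHy g hg g1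
    refine ⟨(g2 _).2 rfl, fun ρ => ?_, fun ρ s s' s'' h h' h'' => ?_⟩
    · obtain ⟨s, hs⟩ := rn_exists hH ρ
      exact ⟨s, (g2 _).2 hs, fun s' hs' => rn_unique hH ρ ((g2 _).1 hs') hs⟩
    · have r := (g2 _).1 h
      obtain ⟨x, hx, hx1, hx2⟩ := rn_child hH r
      have e1 := rn_unique hH _ ((g2 _).1 h') hx1
      have e2 := rn_unique hH _ ((g2 _).1 h'') hx2
      change s' = x.1 at e1
      change s'' = x.2 at e2
      rw [e1, e2]
      exact hx.1
  · -- the generic branch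
    have k1 : ∀ᶠ h in ae (tC IsSac A), ∀ t, (tND t : tC IsSac A) ∈ h →
        ∃ k, (tND (t ++ [k]) : tC IsSac A) ∈ h := by
      refine ae_all fun t => ?_
      filter_upwards [ae_iSup fun k => (tND (t ++ [k]) : tC IsSac A)] with h hh ht
      rw [ndsup t] at ht
      exact hh.1 ht
    filter_upwards [k1, ae_pull hE hgood, ae_pull hE hact, ae_pull hE hts] with h k1 g1 g3 g4 hp
    intro g' hg'
    obtain rfl : g' = h.pull hE := by
      apply Ult.ext
      ext b
      exact hg' b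
    obtain ⟨hag, hτs⟩ := h.mem_inf.1 hp
    set g : Ult A := h.pull hE with hgdef
    have hg : a ∈ g := hag
    have hH := hHy g hg g1
    have e : ∀ t, τ.1 t ∈ g ↔ t ∈ Tr (EE ed g) enc s0 nd := by
      intro t
      show ts t ∈ g ↔ _
      rw [g4 t]
      simp only [hg, true_and, not_true_eq_false, false_and, or_false]
    have ndtree : ∀ t, (tND t : tC IsSac A) ∈ h → t ∈ Tr (EE ed g) enc s0 nd := by
      intro t ht
      have e1 : tE IsSac A (prj (tE IsSac A) (tG τ ⊓ tND t)) ∈ h :=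
        h.mono (hprj _) (h.mem_inf.2 ⟨hτs, ht⟩)
      rw [prjnd] at e1
      exact (e t).1 e1
    -- long nodes
    have long : ∀ (N : ℕ) (t : List ℕ), (tND t : tC IsSac A) ∈ h →
        ∃ t', t <+: t' ∧ N ≤ t'.length ∧ (tND t' : tC IsSac A) ∈ h := by
      intro N
      induction N with
      | zero => exact fun t ht => ⟨t, List.prefix_rfl, Nat.zero_le _, ht⟩
      | succ N ih =>
        intro t ht
        obtain ⟨t', h1, h2, h3⟩ := ih t ht
        obtain ⟨k, hk⟩ := k1 t' h3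
        refine ⟨t' ++ [k], h1.trans (List.prefix_append _ _), ?_, hk⟩
        simp only [List.length_append, List.length_singleton]
        omega
    have root : (tND (nd s0) : tC IsSac A) ∈ h := by
      obtain ⟨t, -, hl, ht⟩ := long (nd s0).length [] (by rw [ndnil]; exact h.mem_top)
      obtain ⟨ρ, s, hr, hps⟩ := ndtree t ht
      have h2 : nd s0 <+: nd s := rn_mono' hH List.nil_prefix (show Rn (EE ed g) enc s0 [] s0 from rfl) hr
      have h3 : nd s0 <+: t := List.prefix_of_prefix_length_le h2 hps hl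
      exact h.mono (ndpre _ _ h3) ht
    have step : ∀ p : {p : List Bool × X // Rn (EE ed g) enc s0 p.1 p.2 ∧
        (tND (nd p.2) : tC IsSac A) ∈ h}, ∃ b : Bool, ∃ s', Rn (EE ed g) enc s0 (p.1.1 ++ [b]) s' ∧
          (tND (nd s') : tC IsSac A) ∈ h := by
      rintro ⟨⟨ρ, s⟩, hr, hn⟩
      change Rn (EE ed g) enc s0 ρ s at hr
      change (tND (nd s) : tC IsSac A) ∈ h at hn
      obtain ⟨x, hx, hx1, hx2⟩ := rn_child hH hr
      obtain ⟨t, h1, h2, h3⟩ := long (max (nd x.1).length (nd x.2).length) (nd s) hn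
      rcases tr_child hH hr hx hx1 hx2 (ndtree t h3) h1 ((le_max_left _ _).trans h2)
        ((le_max_right _ _).trans h2) with hc | hc
      · exact ⟨false, x.1, hx1, h.mono (ndpre _ _ hc) h3⟩
      · exact ⟨true, x.2, hx2, h.mono (ndpre _ _ hc) h3⟩
    choose nb ns hns1 hns2 using step
    let ζ : ℕ → {p : List Bool × X // Rn (EE ed g) enc s0 p.1 p.2 ∧
        (tND (nd p.2) : tC IsSac A) ∈ h} :=
      fun n => Nat.rec ⟨([], s0), rfl, root⟩ (fun _ p => ⟨(p.1.1 ++ [nb p], ns p), hns1 p, hns2 p⟩) n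
    let β : Cs := fun n => nb (ζ n)
    have hβ : ∀ n, (ζ n).1.1 = res β n := by
      intro n
      induction n with
      | zero => rfl
      | succ n ih =>
        show (ζ n).1.1 ++ [nb (ζ n)] = res β (n + 1)
        rw [ih]
        unfold res
        rw [List.range_succ, List.map_append]
        rfl
    refine ⟨β, fun n s hs => ?_⟩
    have h1 : Rn (EE ed g) enc s0 (res β n) s := (g3 _).1 hs
    have h2 := (ζ n).2.1
    rw [hβ n] at h2
    rw [rn_unique hH _ h1 h2]
    exact (ζ n).2.2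
  · -- trees in the generic filter
    intro σ
    choose τ' hτ1 hτ2 hτ3 hτ4 using mres τ
    have q2 : ∀ᶠ g in ae A, ∀ t, (∀ t', (τ' t).1 t' ∈ g → σ.1 t' ∈ g) →
        (TQ IsSac A).le (τ' t) σ ∈ g := ae_all fun t => tq_mem_le_of (τ' t) σ
    filter_upwards [ae_pull hE hgood, ae_pull hE hact, ae_pull hE hts, ae_pull hE q2,
      ae_pull hE σ.2] with h g1 g3 g4 g5 g6 hp
    intro g' hg' ρ s hP hnd hσ
    obtain rfl : g' = h.pull hE := by
      apply Ult.ext
      ext b
      exact hg' b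
    obtain ⟨hag, hτs⟩ := h.mem_inf.1 hp
    set g : Ult A := h.pull hE with hgdef
    have hg : a ∈ g := hag
    have hH := hHy g hg g1
    have e : ∀ t, τ.1 t ∈ g ↔ t ∈ Tr (EE ed g) enc s0 nd := by
      intro t
      show ts t ∈ g ↔ _
      rw [g4 t]
      simp only [hg, true_and, not_true_eq_false, false_and, or_false]
    have hr : Rn (EE ed g) enc s0 ρ s := (g3 _).1 hP
    have hτnd : τ.1 (nd s) ∈ g := (e _).2 ⟨ρ, s, hr, List.prefix_rfl⟩
    have hG' : tG (τ' (nd s)) ∈ h := by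
      have e1 : tG τ ⊓ tND (nd s) ∈ h := h.mem_inf.2 ⟨hτs, hnd⟩
      rw [← hτ1 (nd s)] at e1
      exact (h.mem_inf.1 e1).2
    have hle : (TQ IsSac A).le (τ' (nd s)) σ ∈ g := by
      refine g5 _ fun t' ht' => ?_
      have e1 : τ.1 (nd s) ⊓ (τ' (nd s)).1 t' ∈ g := g.mem_inf.2 ⟨hτnd, ht'⟩
      rw [hτ4 (nd s) t'] at e1
      have e2 := (g.mem_inf.1 e1).2
      have hc : Cmp t' (nd s) := by
        by_contra hcon
        rw [iSup_neg hcon] at e2
        exact g.not_bot e2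
      rw [iSup_pos hc] at e2
      obtain ⟨ρ', s', hρ', hs', hp'⟩ := tr_cmp hH hr ((e _).1 e2) hc
      exact g6.pre _ _ hp' (hσ ρ' s' hρ' ((g3 (ρ', s')).2 hs'))
    have e3 : tE IsSac A ((TQ IsSac A).le (τ' (nd s)) σ) ⊓ tG (τ' (nd s)) ≤ tG σ := by
      rw [← mfo, mfole]
    exact h.mono e3 (h.mem_inf.2 ⟨hle, hG'⟩)

end Pool.Agent.Lib.MP_a78e1f_lc.H45
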